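import Mathlib

/-!
The kernel `min s u` is positive semidefinite.
-/

namespace Pool.Agent.L7h46.AG

open MeasureTheory Set

/-- the truncated integrand -/
noncomputable def H (f : ℝ → ℝ) (z : ℝ × ℝ) (t : ℝ) : ℝ :=
  (f z.1 * (if t < z.1 then 1 else 0)) * (f z.2 * (if t < z.2 then 1 else 0))

lemma H_eq (f : ℝ → ℝ) (z : ℝ × ℝ) (t : ℝ) :
    H f z t = (f z.1 * f z.2) * (Iio (min z.1 z.2)).indicator (fun _ => (1 : ℝ)) t := by
  unfold H
  simp only [indicator_apply, mem_Iio, lt_min_iff]
  by_cases h1 : t < z.1 <;> by_cases h2 : t < z.2 <;> simp [h1, h2]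

lemma ind_int (m : ℝ) (hm : 0 ≤ m) :
    Integrable ((Iio m).indicator (fun _ => (1 : ℝ))) (volume.restrict (Ioi (0 : ℝ))) ∧
    ∫ t, (Iio m).indicator (fun _ => (1 : ℝ)) t ∂(volume.restrict (Ioi (0 : ℝ))) = m := by
  have hs : (Ioi (0 : ℝ)) ∩ (Iio m) = Ioo 0 m := Ioi_inter_Iio
  constructor
  · rw [integrable_indicator_iff measurableSet_Iio, IntegrableOn,
      Measure.restrict_restrict measurableSet_Iio, inter_comm, hs]
    exact integrable_const _
  · rw [integral_indicator measurableSet_Iio, Measure.restrict_restrict measurableSet_Iio,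
      inter_comm, hs, setIntegral_const]
    simp [hm]

theorem frm (pi : Measure ℝ) [IsProbabilityMeasure pi] (h0 : ∀ᵐ u ∂pi, 0 ≤ u) (f : ℝ → ℝ)
    (hf : Measurable f)
    (hi : Integrable (Function.uncurry fun s u : ℝ => f s * (min s u * f u)) (pi.prod pi))
    (hf1 : Integrable f pi) : 0 ≤ ∫ s, ∫ u, f s * (min s u * f u) ∂pi ∂pi := by
  have hz : ∀ᵐ z ∂(pi.prod pi), 0 ≤ min z.1 z.2 := by
    have h1 : ∀ᵐ z ∂(pi.prod pi), 0 ≤ z.1 := Measure.quasiMeasurePreserving_fst.ae h0
    have h2 : ∀ᵐ z ∂(pi.prod pi), 0 ≤ z.2 := Measure.quasiMeasurePreserving_snd.ae h0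
    filter_upwards [h1, h2] with z a b
    exact le_min a b
  have hmeas : Measurable (Function.uncurry (H f)) := by
    unfold H Function.uncurry
    refine Measurable.mul ?_ ?_
    · refine Measurable.mul (hf.comp (measurable_fst.comp measurable_fst)) ?_
      refine Measurable.ite ?_ measurable_const measurable_const
      exact measurableSet_lt measurable_snd (measurable_fst.comp measurable_fst)
    · refine Measurable.mul (hf.comp (measurable_snd.comp measurable_fst)) ?_
      refine Measurable.ite ?_ measurable_const measurable_const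
      exact measurableSet_lt measurable_snd (measurable_snd.comp measurable_fst)
  have hint : Integrable (Function.uncurry (H f))
      ((pi.prod pi).prod (volume.restrict (Ioi (0 : ℝ)))) := by
    rw [integrable_prod_iff hmeas.aestronglyMeasurable]
    constructor
    · filter_upwards [hz] with z hz
      simp only [Function.uncurry]
      have := (ind_int _ hz).1.const_mul (f z.1 * f z.2)
      refine this.congr (Filter.Eventually.of_forall fun t => ?_)
      exact (H_eq f z t).symm
    · refine hi.norm.congr ?_
      filter_upwards [hz] with z hz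
      simp only [Function.uncurry]
      have e : ∀ t, ‖H f z t‖ =
          |f z.1 * f z.2| * (Iio (min z.1 z.2)).indicator (fun _ => (1 : ℝ)) t := by
        intro t
        rw [H_eq, Real.norm_eq_abs, abs_mul]
        congr 1
        simp only [indicator_apply]
        split_ifs <;> simp
      simp_rw [e]
      rw [integral_const_mul, (ind_int _ hz).2, Real.norm_eq_abs]
      rw [show f z.1 * (min z.1 z.2 * f z.2) = (f z.1 * f z.2) * min z.1 z.2 by ring, abs_mul,
        abs_of_nonneg hz]
  have e1 : ∫ s, ∫ u, f s * (min s u * f u) ∂pi ∂pi =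
      ∫ z, ∫ t, H f z t ∂(volume.restrict (Ioi (0 : ℝ))) ∂(pi.prod pi) := by
    have e0 := integral_prod _ hi
    simp only [Function.uncurry] at e0
    rw [← e0]
    apply integral_congr_ae
    filter_upwards [hz] with z hz
    simp_rw [H_eq]
    rw [integral_const_mul, (ind_int _ hz).2]
    ring
  rw [e1, integral_integral_swap hint]
  apply integral_nonneg
  intro t
  have e2 : ∫ z, H f z t ∂(pi.prod pi) =
      (∫ s, f s * (if t < s then 1 else 0) ∂pi) * ∫ s, f s * (if t < s then 1 else 0) ∂pi := by
    unfold H
    exact integral_prod_mul (μ := pi) (ν := pi) (fun s => f s * (if t < s then 1 else 0))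
      (fun s => f s * (if t < s then 1 else 0))
  simp only [Pi.zero_apply]
  rw [e2]
  exact mul_self_nonneg _

end Pool.Agent.L7h46.AG
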